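import Pool.Agent.H992.BE.Defs

/-!
# Every limit of the averages is the law of a stationary wave
-/

set_option autoImplicit false
set_option linter.unusedSectionVars false
open MeasureTheory Filter Topology Complex ProbabilityTheory
open scoped ContDiff ENNReal NNReal BoundedContinuousFunction

namespace Pool.Agent.H728.BE

open Pool.Agent.W745.RW (lap)
open Pool.Agent.K3h40.EC (psi KK Sp KK_contf KK_contx psi_smooth psiSp lapsi_smooth lapsi_Sp)
open Pool.Agent.N661.BR (MW lin IsStationary IsRandomWave shift meas_shift)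
open Pool.Agent.H992.BE

/-! ### weights -/

variable {a : ℕ → ℕ → ℝ≥0} {L : ℕ → ℕ}

/-- the Toeplitz argument -/
theorem toeplitz (hS : Sch a L) {c : ℕ → ℝ} (hc0 : ∀ n, 0 ≤ c n) (hc : Tendsto c atTop (𝓝 0)) :
    Tendsto (fun N => ∑ n ∈ Finset.range (L N), (a N n : ℝ) * c n) atTop (𝓝 0) := by
  rw [Metric.tendsto_atTop]
  intro ε hε
  obtain ⟨n₀, hn₀⟩ := eventually_atTop.1 (hc.eventually (ge_mem_nhds (half_pos hε)))
  have h1 : Tendsto (fun N => ∑ n ∈ Finset.range n₀, (a N n : ℝ) * c n) atTop (𝓝 0) := by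
    have : Tendsto (fun N => ∑ n ∈ Finset.range n₀, (a N n : ℝ) * c n) atTop
        (𝓝 (∑ n ∈ Finset.range n₀, (0 : ℝ) * c n)) := by
      refine tendsto_finsetSum _ fun n _ => ?_
      refine Tendsto.mul_const _ ?_
      have := (NNReal.tendsto_coe.2 (hS.zero n))
      simpa using this
    simpa using this
  obtain ⟨N₀, hN₀⟩ := eventually_atTop.1 (h1.eventually (gt_mem_nhds (half_pos hε)))
  refine ⟨N₀, fun N hN => ?_⟩
  have h2 : 0 ≤ ∑ n ∈ Finset.range (L N), (a N n : ℝ) * c n :=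
    Finset.sum_nonneg fun n _ => mul_nonneg (a N n).coe_nonneg (hc0 n)
  rw [Real.dist_eq, sub_zero, abs_of_nonneg h2]
  have h3 : ∀ n ∈ Finset.range (L N), (a N n : ℝ) * c n ≤
      (if n < n₀ then (a N n : ℝ) * c n else 0) + (a N n : ℝ) * (ε / 2) := by
    intro n _
    have e1 : 0 ≤ (a N n : ℝ) := (a N n).coe_nonneg
    split_ifs with h
    · have : 0 ≤ (a N n : ℝ) * (ε / 2) := by positivity
      linarith
    · have := mul_le_mul_of_nonneg_left (hn₀ n (not_lt.1 h)) e1
      linarith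
  have h4 : ∑ n ∈ Finset.range (L N), (if n < n₀ then (a N n : ℝ) * c n else 0) ≤
      ∑ n ∈ Finset.range n₀, (a N n : ℝ) * c n := by
    rw [← Finset.sum_filter]
    refine Finset.sum_le_sum_of_subset_of_nonneg ?_ fun n _ _ =>
      mul_nonneg (a N n).coe_nonneg (hc0 n)
    intro n hn
    rw [Finset.mem_filter] at hn
    exact Finset.mem_range.2 hn.2
  have h5 : ∑ n ∈ Finset.range (L N), (a N n : ℝ) * (ε / 2) ≤ ε / 2 := by
    rw [← Finset.sum_mul]
    have h6 : ∑ n ∈ Finset.range (L N), (a N n : ℝ) ≤ 1 := by exact_mod_cast hS.le N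
    have := mul_le_mul_of_nonneg_right h6 (half_pos hε).le
    linarith
  have h6 := hN₀ N hN
  calc ∑ n ∈ Finset.range (L N), (a N n : ℝ) * c n ≤ _ := Finset.sum_le_sum h3
    _ = ∑ n ∈ Finset.range (L N), (if n < n₀ then (a N n : ℝ) * c n else 0) +
        ∑ n ∈ Finset.range (L N), (a N n : ℝ) * (ε / 2) := Finset.sum_add_distrib
    _ < ε := by linarith

section abst

variable [MeasurableSpace C(ℂ, ℝ)] [BorelSpace C(ℂ, ℝ)] {m : ℕ → Measure C(ℂ, ℝ)}

/-- integrals with respect to the averages -/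
theorem int_avg {E : Type*} [NormedAddCommGroup E] [NormedSpace ℝ E] (N : ℕ) {F : C(ℂ, ℝ) → E}
    (hF : ∀ n, Integrable F (m n)) :
    ∫ f, F f ∂(avg m a L N) = ∑ n ∈ Finset.range (L N), (a N n : ℝ) • ∫ f, F f ∂(m n) := by
  unfold avg
  rw [integral_finsetSum_measure]
  · refine Finset.sum_congr rfl fun n _ => ?_
    rw [integral_smul_nnreal_measure]
    rfl
  · intro n _
    exact (hF n).smul_measure_nnreal

theorem avg_fin (hm : Reg m) (N : ℕ) : IsFiniteMeasure (avg m a L N) := by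
  refine ⟨?_⟩
  unfold avg
  rw [Measure.finsetSum_apply]
  refine (ENNReal.sum_lt_top).2 fun n _ => ?_
  have := hm.prob n
  rw [Measure.smul_apply, measure_univ]
  simp

/-- bounded continuous functions are integrable -/
theorem bdd_int {μ : Measure C(ℂ, ℝ)} [IsFiniteMeasure μ] {G : C(ℂ, ℝ) → ℝ} (hG : Continuous G)
    {C : ℝ} (hC : ∀ f, |G f| ≤ C) : Integrable G μ :=
  Integrable.of_bound hG.aestronglyMeasurable C (Eventually.of_forall hC)

/-- a continuous functional which vanishes on the functions which satisfy the reproduction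
formulas on a disc vanishes almost everywhere for the limit -/
theorem zero_ae (hm : Reg m) (hS : Sch a L) {φ : Ultrafilter ℕ} (hφ : (φ : Filter ℕ) ≤ atTop)
    {μ : Measure C(ℂ, ℝ)} [IsFiniteMeasure μ]
    (hl : ∀ G : C(ℂ, ℝ) → ℝ, Continuous G → (∃ C, ∀ f, |G f| ≤ C) →
      Tendsto (fun N => ∫ f, G f ∂(avg m a L N)) φ (𝓝 (∫ f, G f ∂μ)))
    {H : C(ℂ, ℝ) → ℝ} (hH : Continuous H) {R : ℝ} (hR : ∀ f, Good R f → H f = 0) :
    ∀ᵐ f ∂μ, H f = 0 := by
  set F : C(ℂ, ℝ) → ℝ := fun f => min 1 |H f| with hFd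
  have hFc : Continuous F := continuous_const.min hH.abs
  have hF0 : ∀ f, 0 ≤ F f := fun f => le_min zero_le_one (abs_nonneg _)
  have hF1 : ∀ f, F f ≤ 1 := fun f => min_le_left _ _
  have hFb : ∀ f, |F f| ≤ 1 := fun f => by rw [abs_of_nonneg (hF0 f)]; exact hF1 f
  have hFi : ∀ n, Integrable F (m n) := fun n => by
    have := hm.prob n
    exact bdd_int hFc hFb
  have h1 : ∀ n, ∫ f, F f ∂(m n) ≤ (m n {f | ¬ Good R f}).toReal := by
    intro n
    have := hm.prob n
    have hms : MeasurableSet {f | F f ≠ 0} :=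
      (isOpen_ne_fun hFc continuous_const).measurableSet
    have h2 : ∫ f, F f ∂(m n) ≤ ∫ f, {f | F f ≠ 0}.indicator (fun _ => (1 : ℝ)) f ∂(m n) := by
      refine integral_mono (hFi n) ((integrable_const (1 : ℝ)).indicator hms) fun f => ?_
      by_cases h : F f = 0
      · rw [Set.indicator_of_notMem (by simpa using h), h]
      · rw [Set.indicator_of_mem (by simpa using h)]
        exact hF1 f
    have h3 : ∫ f, {f | F f ≠ 0}.indicator (fun _ => (1 : ℝ)) f ∂(m n) =
        (m n {f | F f ≠ 0}).toReal := by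
      rw [integral_indicator hms, setIntegral_const, smul_eq_mul, mul_one]
      rfl
    rw [h3] at h2
    refine h2.trans (ENNReal.toReal_mono (measure_ne_top _ _) (measure_mono ?_))
    intro f hf hg
    apply hf
    show min 1 |H f| = 0
    rw [hR f hg, abs_zero, min_eq_right zero_le_one]
  have h2 : Tendsto (fun n => (m n {f | ¬ Good R f}).toReal) atTop (𝓝 0) := by
    have h := (ENNReal.tendsto_toReal ENNReal.zero_ne_top).comp (hm.rep R)
    rw [ENNReal.toReal_zero] at h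
    exact h
  have h3 := toeplitz hS (fun n => ENNReal.toReal_nonneg) h2
  have h4 : Tendsto (fun N => ∫ f, F f ∂(avg m a L N)) atTop (𝓝 0) := by
    refine squeeze_zero (fun N => integral_nonneg hF0) (fun N => ?_) h3
    rw [int_avg N hFi]
    refine Finset.sum_le_sum fun n _ => ?_
    rw [smul_eq_mul]
    exact mul_le_mul_of_nonneg_left (h1 n) (a N n).coe_nonneg
  have h5 : ∫ f, F f ∂μ = 0 := tendsto_nhds_unique (hl F hFc ⟨1, hFb⟩) (h4.mono_left hφ)
  have h6 : F =ᵐ[μ] 0 := (integral_eq_zero_iff_of_nonneg hF0 (bdd_int hFc hFb)).1 h5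
  filter_upwards [h6] with f hf
  have hf' : min 1 |H f| = 0 := hf
  rcases min_choice 1 |H f| with h | h
  · rw [h] at hf'
    exact absurd hf' one_ne_zero
  · rw [h] at hf'
    exact abs_eq_zero.1 hf'

/-- real version of the functional `KK` -/
theorem KK_real (Q : ℂ → ℝ) (f : ℂ → ℝ) (x : ℂ) :
    (KK (fun w => (Q w : ℂ)) f x).re = ∫ w, f (x + w) * Q w := by
  unfold KK
  have : (fun w => (f (x + w) : ℂ) * (Q w : ℂ)) = fun w => ((f (x + w) * Q w : ℝ) : ℂ) := by
    funext w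
    push_cast
    rfl
  rw [this, integral_complex_ofReal]
  exact Complex.ofReal_re _

theorem contf {Q : ℂ → ℝ} (hQ : Continuous Q) (hs : Sp Q) (x : ℂ) :
    Continuous fun f : C(ℂ, ℝ) => ∫ w, f (x + w) * Q w := by
  have h := KK_contf (g := fun w => (Q w : ℂ)) (Complex.continuous_ofReal.comp hQ)
    (fun w hw => by simp [hs w hw]) x
  exact (Complex.continuous_re.comp h).congr fun f => KK_real Q f x

theorem contx {Q : ℂ → ℝ} (hQ : Continuous Q) (hs : Sp Q) (f : C(ℂ, ℝ)) :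
    Continuous fun x => ∫ w, f (x + w) * Q w := by
  have h := KK_contx (g := fun w => (Q w : ℂ)) (Complex.continuous_ofReal.comp hQ)
    (fun w hw => by simp [hs w hw]) f.continuous
  exact (Complex.continuous_re.comp h).congr fun x => KK_real Q f x

/-- almost all functions for the limit satisfy the reproduction formulas -/
theorem good_ae (hm : Reg m) (hS : Sch a L) {φ : Ultrafilter ℕ} (hφ : (φ : Filter ℕ) ≤ atTop)
    {μ : Measure C(ℂ, ℝ)} [IsFiniteMeasure μ]
    (hl : ∀ G : C(ℂ, ℝ) → ℝ, Continuous G → (∃ C, ∀ f, |G f| ≤ C) →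
      Tendsto (fun N => ∫ f, G f ∂(avg m a L N)) φ (𝓝 (∫ f, G f ∂μ))) :
    ∀ᵐ f ∂μ, ∀ R : ℝ, Good R f := by
  have h1 : ∀ x : ℂ, ∀ᵐ f ∂μ, (∫ w, f (x + w) * psi w) - f x = 0 := fun x =>
    zero_ae hm hS hφ hl (R := ‖x‖)
      ((contf psi_smooth.continuous psiSp x).sub (continuous_eval_const x))
      fun f hf => by rw [(hf x le_rfl).1, sub_self]
  have h2 : ∀ x : ℂ, ∀ᵐ f ∂μ, (∫ w, f (x + w) * lap psi w) + f x = 0 := fun x =>
    zero_ae hm hS hφ hl (R := ‖x‖)
      ((contf lapsi_smooth.continuous lapsi_Sp x).add (continuous_eval_const x))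
      fun f hf => by rw [(hf x le_rfl).2, neg_add_cancel]
  have h3 : ∀ᵐ f ∂μ, ∀ n : ℕ, (∫ w, f (TopologicalSpace.denseSeq ℂ n + w) * psi w) -
      f (TopologicalSpace.denseSeq ℂ n) = 0 := ae_all_iff.2 fun n => h1 _
  have h4 : ∀ᵐ f ∂μ, ∀ n : ℕ, (∫ w, f (TopologicalSpace.denseSeq ℂ n + w) * lap psi w) +
      f (TopologicalSpace.denseSeq ℂ n) = 0 := ae_all_iff.2 fun n => h2 _
  filter_upwards [h3, h4] with f hf1 hf2
  have e1 : (fun x => ∫ w, f (x + w) * psi w) = fun x => f x := by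
    refine Continuous.ext_on (TopologicalSpace.denseRange_denseSeq ℂ)
      (contx psi_smooth.continuous psiSp f) f.continuous ?_
    rintro _ ⟨n, rfl⟩
    exact sub_eq_zero.1 (hf1 n)
  have e2 : (fun x => ∫ w, f (x + w) * lap psi w) = fun x => -f x := by
    refine Continuous.ext_on (TopologicalSpace.denseRange_denseSeq ℂ)
      (contx lapsi_smooth.continuous lapsi_Sp f) f.continuous.neg ?_
    rintro _ ⟨n, rfl⟩
    exact eq_neg_of_add_eq_zero_left (hf2 n)
  intro R x _
  exact ⟨congrFun e1 x, congrFun e2 x⟩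

/-! ### characters -/

theorem ch_cont {k : ℕ} (w : Fin k → ℂ) (t : Fin k → ℝ) : Continuous (ch w t) := by
  unfold ch
  have : Continuous fun f : C(ℂ, ℝ) => ∑ j, t j * f (w j) :=
    continuous_finsetSum _ fun j _ => continuous_const.mul (continuous_eval_const (w j))
  fun_prop

theorem ch_norm {k : ℕ} (w : Fin k → ℂ) (t : Fin k → ℝ) (f : C(ℂ, ℝ)) : ‖ch w t f‖ = 1 := by
  unfold ch
  rw [mul_comm]
  exact Complex.norm_exp_ofReal_mul_I _

theorem ch_int {μ : Measure C(ℂ, ℝ)} [IsFiniteMeasure μ] {k : ℕ} (w : Fin k → ℂ)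
    (t : Fin k → ℝ) : Integrable (ch w t) μ :=
  Integrable.of_bound (ch_cont w t).aestronglyMeasurable 1
    (Eventually.of_forall fun f => (ch_norm w t f).le)

/-- convergence of the characters -/
theorem ch_lim (hm : Reg m) {φ : Ultrafilter ℕ} {μ : Measure C(ℂ, ℝ)} [IsFiniteMeasure μ]
    (hl : ∀ G : C(ℂ, ℝ) → ℝ, Continuous G → (∃ C, ∀ f, |G f| ≤ C) →
      Tendsto (fun N => ∫ f, G f ∂(avg m a L N)) φ (𝓝 (∫ f, G f ∂μ)))
    {k : ℕ} (w : Fin k → ℂ) (t : Fin k → ℝ) :
    Tendsto (fun N => ∫ f, ch w t f ∂(avg m a L N)) φ (𝓝 (∫ f, ch w t f ∂μ)) := by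
  have h1 := hl (fun f => (ch w t f).re) (Complex.continuous_re.comp (ch_cont w t))
    ⟨1, fun f => (Complex.abs_re_le_norm _).trans (ch_norm w t f).le⟩
  have h2 := hl (fun f => (ch w t f).im) (Complex.continuous_im.comp (ch_cont w t))
    ⟨1, fun f => (Complex.abs_im_le_norm _).trans (ch_norm w t f).le⟩
  have h3 := ((Complex.continuous_ofReal.tendsto _).comp h1).add
    (((Complex.continuous_ofReal.tendsto _).comp h2).mul_const I)
  have h4 : ∀ ν : Measure C(ℂ, ℝ), IsFiniteMeasure ν →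
      (((∫ f, (ch w t f).re ∂ν : ℝ) : ℂ) + ((∫ f, (ch w t f).im ∂ν : ℝ) : ℂ) * I) =
        ∫ f, ch w t f ∂ν := fun ν _ => integral_re_add_im (ch_int w t)
  rw [h4 μ inferInstance] at h3
  refine h3.congr fun N => ?_
  exact h4 _ (avg_fin hm N)

/-- the limit has stationary characters -/
theorem ch_stat (hm : Reg m) (hS : Sch a L) {φ : Ultrafilter ℕ} (hφ : (φ : Filter ℕ) ≤ atTop)
    {μ : Measure C(ℂ, ℝ)} [IsFiniteMeasure μ]
    (hl : ∀ G : C(ℂ, ℝ) → ℝ, Continuous G → (∃ C, ∀ f, |G f| ≤ C) →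
      Tendsto (fun N => ∫ f, G f ∂(avg m a L N)) φ (𝓝 (∫ f, G f ∂μ)))
    (x : ℂ) {k : ℕ} (w : Fin k → ℂ) (t : Fin k → ℝ) :
    ∫ f, ch (fun j => w j + x) t f ∂μ = ∫ f, ch w t f ∂μ := by
  have h1 := (ch_lim hm hl (fun j => w j + x) t).sub (ch_lim hm hl w t)
  have h2 : Tendsto (fun N => ∫ f, ch (fun j => w j + x) t f ∂(avg m a L N) -
      ∫ f, ch w t f ∂(avg m a L N)) atTop (𝓝 0) := by
    have h3 := toeplitz hS (fun n => norm_nonneg (∫ f, ch (fun j => w j + x) t f ∂(m n) -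
      ∫ f, ch w t f ∂(m n))) (tendsto_zero_iff_norm_tendsto_zero.1 (hm.stat x k w t))
    refine squeeze_zero_norm (fun N => ?_) h3
    have hi : ∀ (w : Fin k → ℂ) n, Integrable (ch w t) (m n) := fun w n => by
      have := hm.prob n
      exact ch_int w t
    rw [int_avg N (hi _), int_avg N (hi _), ← Finset.sum_sub_distrib]
    refine (norm_sum_le _ _).trans (Finset.sum_le_sum fun n _ => ?_)
    rw [← smul_sub, norm_smul, Real.norm_of_nonneg (a N n).coe_nonneg]
  exact sub_eq_zero.1 (tendsto_nhds_unique h1 (h2.mono_left hφ))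

/-! ### second moments -/

theorem sq_lim (hm : Reg m) (hS : Sch a L) {φ : Ultrafilter ℕ}
    {μ : Measure C(ℂ, ℝ)} [IsFiniteMeasure μ]
    (hl : ∀ G : C(ℂ, ℝ) → ℝ, Continuous G → (∃ C, ∀ f, |G f| ≤ C) →
      Tendsto (fun N => ∫ f, G f ∂(avg m a L N)) φ (𝓝 (∫ f, G f ∂μ))) :
    Integrable (fun f : C(ℂ, ℝ) => f 0 ^ 2) μ := by
  obtain ⟨C, hC, hsq⟩ := hm.sq
  have hc0 : Continuous fun f : C(ℂ, ℝ) => f 0 := continuous_eval_const 0
  set G : ℕ → C(ℂ, ℝ) → ℝ := fun T f => min (f 0 ^ 2) T with hG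
  have hGc : ∀ T, Continuous (G T) := fun T => (hc0.pow 2).min continuous_const
  have hG0 : ∀ T f, 0 ≤ G T f := fun T f => le_min (sq_nonneg _) (Nat.cast_nonneg _)
  have hGb : ∀ T f, |G T f| ≤ T := fun T f => by
    rw [abs_of_nonneg (hG0 T f)]
    exact min_le_right _ _
  have h1 : ∀ T n, ∫ f, G T f ∂(m n) ≤ C.toReal := by
    intro T n
    have := hm.prob n
    rw [integral_eq_lintegral_of_nonneg_ae (Eventually.of_forall (hG0 T))
      (hGc T).aestronglyMeasurable]
    refine ENNReal.toReal_mono hC (le_trans (lintegral_mono fun f => ?_) (hsq n))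
    have e1 : ‖f 0‖ₑ ^ 2 = ENNReal.ofReal (f 0 ^ 2) := by
      rw [← ofReal_norm, ← ENNReal.ofReal_pow (norm_nonneg _), Real.norm_eq_abs, sq_abs]
    rw [e1]
    exact ENNReal.ofReal_le_ofReal (min_le_left _ _)
  have h2 : ∀ T, ∫ f, G T f ∂μ ≤ C.toReal := by
    intro T
    refine le_of_tendsto (hl (G T) (hGc T) ⟨T, hGb T⟩) (Eventually.of_forall fun N => ?_)
    have hi : ∀ n, Integrable (G T) (m n) := fun n => by
      have := hm.prob n
      exact bdd_int (hGc T) (hGb T)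
    rw [int_avg N hi]
    calc ∑ n ∈ Finset.range (L N), (a N n : ℝ) • ∫ f, G T f ∂(m n) ≤
        ∑ n ∈ Finset.range (L N), (a N n : ℝ) * C.toReal :=
          Finset.sum_le_sum fun n _ => mul_le_mul_of_nonneg_left (h1 T n) (a N n).coe_nonneg
      _ = (∑ n ∈ Finset.range (L N), (a N n : ℝ)) * C.toReal := by rw [Finset.sum_mul]
      _ ≤ 1 * C.toReal := by
          refine mul_le_mul_of_nonneg_right ?_ ENNReal.toReal_nonneg
          exact_mod_cast hS.le N
      _ = C.toReal := one_mul _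
  have h3 : ∀ T : ℕ, ∫⁻ f, ENNReal.ofReal (G T f) ∂μ ≤ C := by
    intro T
    rw [← ofReal_integral_eq_lintegral_ofReal (bdd_int (hGc T) (hGb T))
      (Eventually.of_forall (hG0 T))]
    exact (ENNReal.ofReal_le_ofReal (h2 T)).trans ENNReal.ofReal_toReal_le
  have h4 : Tendsto (fun T => ∫⁻ f, ENNReal.ofReal (G T f) ∂μ) atTop
      (𝓝 (∫⁻ f, ENNReal.ofReal (f 0 ^ 2) ∂μ)) := by
    refine lintegral_tendsto_of_tendsto_of_monotone
      (fun T => ((hGc T).measurable.ennreal_ofReal).aemeasurable) ?_ ?_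
    · refine Eventually.of_forall fun f T T' hT => ENNReal.ofReal_le_ofReal ?_
      exact min_le_min le_rfl (by exact_mod_cast hT)
    · refine Eventually.of_forall fun f => ?_
      refine tendsto_const_nhds.congr' ?_
      obtain ⟨T₀, hT₀⟩ := exists_nat_ge (f 0 ^ 2)
      filter_upwards [eventually_ge_atTop T₀] with T hT
      have : f 0 ^ 2 ≤ T := hT₀.trans (by exact_mod_cast hT)
      show ENNReal.ofReal (f 0 ^ 2) = ENNReal.ofReal (min (f 0 ^ 2) T)
      rw [min_eq_left this]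
  have h5 : ∫⁻ f, ENNReal.ofReal (f 0 ^ 2) ∂μ ≤ C := le_of_tendsto' h4 h3
  refine ⟨(hc0.pow 2).aestronglyMeasurable, ?_⟩
  rw [hasFiniteIntegral_iff_ofReal (Eventually.of_forall fun f => sq_nonneg _)]
  exact lt_of_le_of_lt h5 (lt_top_iff_ne_top.2 hC)

end abst

theorem mw (h : S_Emb) : S_MW := by
  intro hM hB m hm a L hS φ hφ μ hμ hl
  obtain ⟨hemb, hclosed, hrange⟩ := h
  have := hμ
  have hae : ∀ᵐ f ∂μ, f ∈ Set.range toC := by
    filter_upwards [good_ae hm hS hφ hl] with f hf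
    exact hrange f hf
  have hmap : (μ.comap toC).map toC = μ := by
    rw [hemb.map_comap]
    exact Measure.restrict_eq_self_of_ae_mem hae
  have hfin : IsFiniteMeasure (μ.comap toC) := by
    refine ⟨?_⟩
    have h1 : (μ.comap toC) Set.univ = μ Set.univ := by
      conv_rhs => rw [← hmap]
      rw [Measure.map_apply hemb.measurable MeasurableSet.univ, Set.preimage_univ]
    rw [h1]
    exact measure_lt_top _ _
  have hch : ∀ {k : ℕ} (w : Fin k → ℂ) (t : Fin k → ℝ),
      ∫ f, ch w t (toC f) ∂(μ.comap toC) = ∫ f, ch w t f ∂μ := by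
    intro k w t
    conv_rhs => rw [← hmap]
    rw [hemb.integral_map]
  refine ⟨μ.comap toC, hfin, hemb.measurable, hmap.symm, ?_, ?_⟩
  · intro x
    refine Pool.Agent.H992.LB.ext_MW _ _ fun k w t => ?_
    rw [integral_map (meas_shift x).aemeasurable]
    · have e1 : ∀ f : MW, Complex.exp (I * (lin w t (shift x f) : ℝ)) =
          ch (fun j => w j + x) t (toC f) := fun f => rfl
      have e2 : ∀ f : MW, Complex.exp (I * (lin w t f : ℝ)) = ch w t (toC f) := fun f => rfl
      simp_rw [e1, e2]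
      rw [hch, hch]
      exact ch_stat hm hS hφ hl x w t
    · have := Pool.Agent.H992.LB.meas_lin w t
      exact Measurable.aestronglyMeasurable (by fun_prop)
  · have h1 := sq_lim hm hS hl
    rw [← hmap, hemb.integrable_map_iff] at h1
    exact h1

end Pool.Agent.H728.BE
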